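import Pool.Agent.Lib.MP_589a62_gt.Full.All

set_option autoImplicit false

/-!
# Maximal central sections of the cube

For every `k ≥ 1` and every `n ≥ 2 k` the maximal `k`-dimensional volume of a central section of
the cube `[-1/2, 1/2]^n` by a `k`-dimensional subspace is `sqrt (q ^ (k - r) * (q + 1) ^ r)`, where
`q = n / k` and `r = n % k`.
-/

open MeasureTheory
open scoped ENNReal

namespace Pool.Agent.Results.MP_589a62_gt.CubeSections

open Pool.Agent.Lib.MP_589a62_gt Pool.Agent.Lib.MP_589a62_gt.Full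

theorem result (k n : ℕ) (hk : 0 < k) (hn : 2 * k ≤ n) :
    IsGreatest
      {v : ℝ≥0∞ | ∃ S : Submodule ℝ (EuclideanSpace ℝ (Fin n)), Module.finrank ℝ S = k ∧
        v = Measure.euclideanHausdorffMeasure k
          ((S : Set (EuclideanSpace ℝ (Fin n))) ∩ {x | ∀ i, |x i| ≤ 1 / 2})}
      (ENNReal.ofReal
        (√(((n / k : ℕ) : ℝ) ^ (k - n % k) * (((n / k : ℕ) : ℝ) + 1) ^ (n % k)))) :=
  isGreatest_of_bound hk (by omega) fun V hV => vol_sq_le_of_two_mul_le hk hn V hV

end Pool.Agent.Results.MP_589a62_gt.CubeSections
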